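import Pool.Agent.L7h48.RT.Stm

set_option autoImplicit false

/-! Project RT (helper48), part EFR: Efron-Stein and Chebyshev for finite products. -/

namespace Pool.Agent.L7h70.RT

open Pool.Agent.L7h48.RT

theorem wexp {X : Type} [Fintype X] (W : X → ℝ) (h1 : ∑ x, W x = 1) (g : X → ℝ) (a : ℝ) :
    ∑ x, W x * (g x - a) ^ 2 = ∑ x, W x * g x ^ 2 - 2 * a * ∑ x, W x * g x + a ^ 2 := by
  have h : ∑ x, W x * (g x - a) ^ 2 =
      ∑ x, W x * g x ^ 2 - 2 * a * ∑ x, W x * g x + a ^ 2 * ∑ x, W x := by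
    rw [Finset.mul_sum, Finset.mul_sum, ← Finset.sum_sub_distrib, ← Finset.sum_add_distrib]
    exact Finset.sum_congr rfl fun x _ => by ring
  rw [h, h1, mul_one]

theorem wvar {X : Type} [Fintype X] (W : X → ℝ) (h1 : ∑ x, W x = 1) (g : X → ℝ) (a : ℝ) :
    ∑ x, W x * g x ^ 2 - (∑ x, W x * g x) ^ 2 ≤ ∑ x, W x * (g x - a) ^ 2 := by
  rw [wexp W h1 g a]
  nlinarith [sq_nonneg (∑ x, W x * g x - a)]

theorem wcs {X : Type} [Fintype X] (W : X → ℝ) (hW : ∀ x, 0 ≤ W x) (h1 : ∑ x, W x = 1)
    (g : X → ℝ) : (∑ x, W x * g x) ^ 2 ≤ ∑ x, W x * g x ^ 2 := by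
  have h := wexp W h1 g (∑ x, W x * g x)
  have h2 : 0 ≤ ∑ x, W x * (g x - ∑ x, W x * g x) ^ 2 :=
    Finset.sum_nonneg fun x _ => mul_nonneg (hW x) (sq_nonneg _)
  nlinarith

section

variable {S : Type} [Fintype S]

theorem prod_fun {ι : Type} [Fintype ι] [DecidableEq ι] (w : S → ℝ) (h1 : ∑ s, w s = 1) (j : ι)
    (g : S → ℝ) : E w (fun x : ι → S => g (x j)) = ∑ s, w s * g s := by
  unfold E
  have h2 : ∀ x : ι → S, (∏ e, w (x e)) * g (x j) =
      ∏ e, (w (x e) * if e = j then g (x e) else 1) := by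
    intro x
    rw [Finset.prod_mul_distrib]
    congr 1
    rw [Finset.prod_ite_eq' Finset.univ j (fun e => g (x e)), if_pos (Finset.mem_univ _)]
  have h3 := Finset.prod_univ_sum (fun _ : ι => (Finset.univ : Finset S))
    (fun e s => w s * if e = j then g s else 1)
  rw [Fintype.piFinset_univ] at h3
  rw [Finset.sum_congr rfl fun x _ => h2 x, ← h3]
  rw [Finset.prod_eq_single j]
  · simp
  · intro b _ hb
    simp [hb, h1]
  · intro h; exact absurd (Finset.mem_univ j) h

theorem sum_w {ι : Type} [Fintype ι] [DecidableEq ι] (w : S → ℝ) (h1 : ∑ s, w s = 1) :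
    ∑ x : ι → S, ∏ e, w (x e) = 1 := by
  have h3 := Finset.prod_univ_sum (fun _ : ι => (Finset.univ : Finset S)) (fun _ s => w s)
  rw [Fintype.piFinset_univ] at h3
  rw [← h3, h1, Finset.prod_const_one]

theorem E_cons (w : S → ℝ) (m : ℕ) (f : (Fin (m + 1) → S) → ℝ) :
    E w f = ∑ s, w s * E w (fun G : Fin m → S => f (Fin.cons s G)) := by
  unfold E
  rw [← (Fin.consEquiv (fun _ : Fin (m + 1) => S)).sum_comp, Fintype.sum_prod_type]
  refine Finset.sum_congr rfl fun s _ => ?_
  rw [Finset.mul_sum]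
  refine Finset.sum_congr rfl fun G _ => ?_
  have h2 : (Fin.consEquiv (fun _ : Fin (m + 1) => S)) (s, G) = (Fin.cons s G : Fin (m + 1) → S) :=
    rfl
  rw [h2, Fin.prod_univ_succ]
  simp only [Fin.cons_zero, Fin.cons_succ]
  ring

theorem efron_stein (w : S → ℝ) (hw : ∀ s, 0 ≤ w s) (h1 : ∑ s, w s = 1) (m : ℕ)
    (f : (Fin m → S) → ℝ) (c : Fin m → (Fin m → S) → ℝ)
    (hc : ∀ j x y, c j (Function.update x j y) = c j x) :
    E w (fun x => f x ^ 2) - (E w f) ^ 2 ≤ ∑ j, E w (fun x => (f x - c j x) ^ 2) := by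
  induction m with
  | zero =>
    have h : ∀ g : (Fin 0 → S) → ℝ, E w g = g default := by
      intro g
      unfold E
      rw [Fintype.sum_unique]
      simp
    rw [h, h]
    simp
  | succ m ih =>
    have hS : Nonempty S := by
      by_contra hS
      rw [not_nonempty_iff] at hS
      rw [Fintype.sum_empty] at h1
      exact zero_ne_one h1
    obtain ⟨s0⟩ := hS
    set g : S → ℝ := fun s => E w (fun G : Fin m → S => f (Fin.cons s G)) with hg
    have e1 := E_cons w m (fun x => f x ^ 2)
    have e2 : E w f = ∑ s, w s * g s := E_cons w m f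
    have h2 : ∀ s : S, E w (fun G : Fin m → S => f (Fin.cons s G) ^ 2) ≤
        g s ^ 2 + ∑ j : Fin m, E w (fun G : Fin m → S =>
          (f (Fin.cons s G) - c j.succ (Fin.cons s G)) ^ 2) := by
      intro s
      have := ih (fun G => f (Fin.cons s G)) (fun j G => c j.succ (Fin.cons s G))
        (by
          intro j G y
          change c j.succ (Fin.cons s (Function.update G j y)) = c j.succ (Fin.cons s G)
          rw [Fin.cons_update, hc])
      change E w (fun G : Fin m → S => f (Fin.cons s G) ^ 2) - g s ^ 2 ≤ _ at this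
      linarith
    have h3 : E w (fun x => f x ^ 2) ≤ ∑ s, w s * g s ^ 2 +
        ∑ j : Fin m, E w (fun x : Fin (m + 1) → S => (f x - c j.succ x) ^ 2) := by
      rw [e1]
      refine (Finset.sum_le_sum fun s _ => mul_le_mul_of_nonneg_left (h2 s) (hw s)).trans ?_
      apply le_of_eq
      have h5 : ∀ j : Fin m, E w (fun x : Fin (m + 1) → S => (f x - c j.succ x) ^ 2) =
          ∑ s, w s * E w (fun G : Fin m → S =>
            (f (Fin.cons s G) - c j.succ (Fin.cons s G)) ^ 2) := fun j => E_cons w m _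
      rw [Finset.sum_congr rfl fun j _ => h5 j, Finset.sum_comm, ← Finset.sum_add_distrib]
      refine Finset.sum_congr rfl fun s _ => ?_
      rw [mul_add, Finset.mul_sum]
    have hc0 : ∀ (s : S) (G : Fin m → S), c 0 (Fin.cons s G) = c 0 (Fin.cons s0 G) := by
      intro s G
      have := hc 0 (Fin.cons s0 G) s
      rwa [Fin.update_cons_zero] at this
    have h4 := wvar w h1 g (E w (fun G : Fin m → S => c 0 (Fin.cons s0 G)))
    have h6 : ∑ s, w s * (g s - E w (fun G : Fin m → S => c 0 (Fin.cons s0 G))) ^ 2 ≤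
        E w (fun x : Fin (m + 1) → S => (f x - c 0 x) ^ 2) := by
      rw [E_cons w m (fun x => (f x - c 0 x) ^ 2)]
      refine Finset.sum_le_sum fun s _ => mul_le_mul_of_nonneg_left ?_ (hw s)
      have e3 : g s - E w (fun G : Fin m → S => c 0 (Fin.cons s0 G)) =
          ∑ G : Fin m → S, (∏ e, w (G e)) * (f (Fin.cons s G) - c 0 (Fin.cons s G)) := by
        rw [hg]
        unfold E
        rw [← Finset.sum_sub_distrib]
        refine Finset.sum_congr rfl fun G _ => ?_
        rw [hc0 s G]
        ring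
      rw [e3]
      exact wcs (fun G : Fin m → S => ∏ e, w (G e)) (fun G => Finset.prod_nonneg fun e _ => hw _)
        (sum_w w h1) _
    rw [Fin.sum_univ_succ, e2]
    linarith

theorem E_mono {ι : Type} [Fintype ι] [DecidableEq ι] (w : S → ℝ) (hw : ∀ s, 0 ≤ w s)
    {f g : (ι → S) → ℝ} (h : ∀ x, f x ≤ g x) : E w f ≤ E w g := by
  unfold E
  exact Finset.sum_le_sum fun x _ =>
    mul_le_mul_of_nonneg_left (h x) (Finset.prod_nonneg fun e _ => hw _)

theorem var_fin (w : S → ℝ) (s0 : S) (hw : ∀ s, 0 ≤ w s) (h1 : ∑ s, w s = 1) (m : ℕ)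
    (f : (Fin m → S) → ℝ) (L : ℝ) (hf : ∀ x e s, |f (Function.update x e s) - f x| ≤ L) :
    E w (fun x => f x ^ 2) - (E w f) ^ 2 ≤ m * (1 - w s0) * L ^ 2 := by
  classical
  have h2 := efron_stein w hw h1 m f (fun j x => f (Function.update x j s0))
    (fun j x y => by simp only [Function.update_idem])
  refine h2.trans ?_
  have h3 : ∀ j : Fin m, E w (fun x => (f x - f (Function.update x j s0)) ^ 2) ≤
      (1 - w s0) * L ^ 2 := by
    intro j
    have h4 : E w (fun x : Fin m → S => (f x - f (Function.update x j s0)) ^ 2) ≤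
        E w (fun x : Fin m → S => (fun s : S => if s = s0 then 0 else L ^ 2) (x j)) := by
      apply E_mono w hw
      intro x
      show _ ≤ (if x j = s0 then 0 else L ^ 2)
      by_cases hx : x j = s0
      · rw [if_pos hx, ← hx, Function.update_eq_self]
        simp
      · rw [if_neg hx]
        have h5 := hf x j s0
        have h6 : (f x - f (Function.update x j s0)) ^ 2 =
            |f (Function.update x j s0) - f x| ^ 2 := by
          rw [sq_abs]; ring
        rw [h6]
        exact pow_le_pow_left₀ (abs_nonneg _) h5 2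
    rw [prod_fun w h1 j (fun s : S => if s = s0 then 0 else L ^ 2)] at h4
    refine h4.trans (le_of_eq ?_)
    have h7 : ∀ s : S, w s * (if s = s0 then 0 else L ^ 2) =
        w s * L ^ 2 - (if s = s0 then w s * L ^ 2 else 0) := by
      intro s
      split_ifs <;> ring
    rw [Finset.sum_congr rfl fun s _ => h7 s, Finset.sum_sub_distrib, ← Finset.sum_mul, h1,
      Finset.sum_ite_eq' Finset.univ s0, if_pos (Finset.mem_univ _)]
    ring
  refine (Finset.sum_le_sum fun j _ => h3 j).trans (le_of_eq ?_)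
  rw [Finset.sum_const, Finset.card_univ, Fintype.card_fin, nsmul_eq_mul]
  ring

theorem E_equiv {ι κ : Type} [Fintype ι] [DecidableEq ι] [Fintype κ] [DecidableEq κ]
    (σ : ι ≃ κ) (w : S → ℝ) (f : (ι → S) → ℝ) :
    E w f = E w (fun x : κ → S => f (x ∘ σ)) := by
  unfold E
  rw [← (σ.arrowCongr (Equiv.refl S)).sum_comp (fun x : κ → S => (∏ e, w (x e)) * f (x ∘ σ))]
  refine Finset.sum_congr rfl fun x _ => ?_
  have h1 : ((σ.arrowCongr (Equiv.refl S)) x) ∘ σ = x := by
    funext i
    simp [Equiv.arrowCongr]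
  rw [h1]
  congr 1
  rw [← σ.prod_comp]
  refine Finset.prod_congr rfl fun i _ => ?_
  simp [Equiv.arrowCongr]

end

theorem s_EFR : S_EFR := by
  classical
  intro ι S _ _ _ w s0 hw h1 f L t hL ht hf
  have hvar : E w (fun x => f x ^ 2) - (E w f) ^ 2 ≤ Fintype.card ι * (1 - w s0) * L ^ 2 := by
    have h2 := var_fin w s0 hw h1 (Fintype.card ι)
      (fun x => f (x ∘ Fintype.equivFin ι)) L (by
        intro x e s
        have h3 : Function.update x e s ∘ Fintype.equivFin ι =
            Function.update (x ∘ Fintype.equivFin ι) ((Fintype.equivFin ι).symm e) s := by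
          funext i
          by_cases hi : i = (Fintype.equivFin ι).symm e
          · subst hi
            simp
          · have h4 : Fintype.equivFin ι i ≠ e := fun h => hi (by rw [← h]; simp)
            simp [Function.update_of_ne hi, Function.update_of_ne h4]
        show |f (Function.update x e s ∘ Fintype.equivFin ι) - f (x ∘ Fintype.equivFin ι)| ≤ L
        rw [h3]
        exact hf _ _ _)
    rw [E_equiv (Fintype.equivFin ι) w f, E_equiv (Fintype.equivFin ι) w (fun x => f x ^ 2)]
    exact h2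
  have hch : E w (fun x => ind (t ≤ |f x - E w f|)) ≤ E w (fun x => (f x - E w f) ^ 2 / t ^ 2) := by
    apply E_mono w hw
    intro x
    unfold ind
    split_ifs with h
    · rw [le_div_iff₀ (by positivity), one_mul, ← sq_abs (f x - E w f)]
      exact pow_le_pow_left₀ ht.le h 2
    · positivity
  refine hch.trans ?_
  have h5 : E w (fun x => (f x - E w f) ^ 2 / t ^ 2) =
      (E w (fun x => f x ^ 2) - (E w f) ^ 2) / t ^ 2 := by
    have h6 := wexp (fun x : ι → S => ∏ e, w (x e)) (sum_w w h1) f (E w f)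
    have h7 : E w (fun x => (f x - E w f) ^ 2 / t ^ 2) =
        (∑ x : ι → S, (∏ e, w (x e)) * (f x - E w f) ^ 2) / t ^ 2 := by
      unfold E
      rw [Finset.sum_div]
      exact Finset.sum_congr rfl fun x _ => by ring
    rw [h7, h6]
    congr 1
    have h8 : ∑ x : ι → S, (∏ e, w (x e)) * f x = E w f := rfl
    have h9 : ∑ x : ι → S, (∏ e, w (x e)) * f x ^ 2 = E w (fun x => f x ^ 2) := rfl
    rw [h8, h9]
    ring
  rw [h5]
  exact div_le_div_of_nonneg_right hvar (by positivity)

end Pool.Agent.L7h70.RT
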