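import Pool.Agent.L7h48.RT.Stm2

set_option autoImplicit false

/-! Project RT (helper48), part COV: the points where a bounded monotone function grows fast. -/

namespace Pool.Agent.L7h70.RT

open Pool.Agent.L7h48.RT

/-- points of fast growth with distances at least `d` -/
def Good (f : ℝ → ℝ) (a b d η : ℝ) (A : Finset ℝ) : Prop :=
  (∀ x ∈ A, x ∈ Set.Icc a b ∧ η < f x - f (x - d)) ∧ ∀ x ∈ A, ∀ y ∈ A, x ≠ y → d ≤ |x - y|

theorem good_bound (f : ℝ → ℝ) (a b d η : ℝ) (hd : 0 < d)
    (hm : MonotoneOn f (Set.Icc (a - d) b)) (h01 : ∀ x ∈ Set.Icc (a - d) b, 0 ≤ f x ∧ f x ≤ 1)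
    (A : Finset ℝ) : Good f a b d η A → ∀ z ∈ Set.Icc (a - d) b, (∀ s ∈ A, s ≤ z) →
      (A.card : ℝ) * η ≤ f z := by
  classical
  induction A using Finset.induction_on_max with
  | empty => intro _ z hz _; simpa using (h01 z hz).1
  | insert M A hM ih =>
    intro hG z hz hs
    have hMA : M ∉ A := fun h => lt_irrefl _ (hM M h)
    have hG' : Good f a b d η A :=
      ⟨fun x hx => hG.1 x (Finset.mem_insert_of_mem hx),
        fun x hx y hy => hG.2 x (Finset.mem_insert_of_mem hx) y (Finset.mem_insert_of_mem hy)⟩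
    obtain ⟨hMab, hMf⟩ := hG.1 M (Finset.mem_insert_self _ _)
    have h1 := ih hG' (M - d) ⟨by linarith [hMab.1], by linarith [hMab.2]⟩ (fun s hs' => by
      have h2 := hG.2 M (Finset.mem_insert_self _ _) s (Finset.mem_insert_of_mem hs')
        (by rintro rfl; exact hMA hs')
      have h3 := hM s hs'
      rw [abs_of_pos (by linarith)] at h2
      linarith)
    have h4 : f M ≤ f z :=
      hm ⟨by linarith [hMab.1], hMab.2⟩ hz (hs M (Finset.mem_insert_self _ _))
    rw [Finset.card_insert_of_notMem hMA]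
    push_cast
    linarith

theorem s_COV : S_COV := by
  classical
  intro f a b d η hd hη hm h01
  have hcard : ∀ A : Finset ℝ, Good f a b d η A → (A.card : ℝ) ≤ 1 / η := by
    intro A hA
    rcases A.eq_empty_or_nonempty with rfl | ⟨x, hx⟩
    · simp [hη.le]
    · have hab : x ∈ Set.Icc a b := (hA.1 x hx).1
      have hb : b ∈ Set.Icc (a - d) b := ⟨by linarith [hab.1, hab.2], le_rfl⟩
      have h1 := good_bound f a b d η hd hm h01 A hA b hb fun s hs => (hA.1 s hs).1.2
      rw [le_div_iff₀ hη]
      exact h1.trans (h01 b hb).2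
  by_contra hcon
  push Not at hcon
  have hall : ∀ n : ℕ, ∃ A : Finset ℝ, Good f a b d η A ∧ A.card = n := by
    intro n
    induction n with
    | zero => exact ⟨∅, ⟨by simp, by simp⟩, rfl⟩
    | succ n ih =>
      obtain ⟨A, hA, hn⟩ := ih
      obtain ⟨x, hx, hxs, hxf⟩ := hcon A (hcard A hA)
      have hxA : x ∉ A := fun h => by
        have := hxs x h
        rw [sub_self, abs_zero] at this
        linarith
      refine ⟨insert x A, ⟨?_, ?_⟩, by rw [Finset.card_insert_of_notMem hxA, hn]⟩
      · intro y hy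
        rcases Finset.mem_insert.1 hy with rfl | hy
        · exact ⟨hx, hxf⟩
        · exact hA.1 y hy
      · intro y hy z hz hyz
        rcases Finset.mem_insert.1 hy with h1 | h1 <;> rcases Finset.mem_insert.1 hz with h2 | h2
        · exact absurd (h1.trans h2.symm) hyz
        · rw [h1]; exact hxs z h2
        · rw [h2, abs_sub_comm]; exact hxs y h1
        · exact hA.2 y h1 z h2 hyz
  obtain ⟨n, hn⟩ := exists_nat_gt (1 / η)
  obtain ⟨A, hA, hAn⟩ := hall n
  have := hcard A hA
  rw [hAn] at this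
  linarith

end Pool.Agent.L7h70.RT
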